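import Mathlib

/-! # Many triples with pairwise disjoint sets of orbits (MP_a74db3_co) -/

set_option autoImplicit false

namespace Pool.Agent.H42.CPD

open Finset

variable {G Q : Type*} [DecidableEq G] [DecidableEq Q]

/-- The three classes of the triple belonging to `a`. -/
def tri (o : G → Q) (β γ : G → G) (a : G) : Finset Q := {o a, o (β a), o (γ a)}

theorem card_tri_le (o : G → Q) (β γ : G → G) (a : G) : (tri o β γ a).card ≤ 3 :=
  Finset.card_le_three

theorem exists_disjoint (D : Finset G) (o : G → Q) (m : ℕ)
    (hm : ∀ t, (D.filter (fun d => o d = t)).card ≤ m) (β γ : G → G)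
    (hβ : ∀ a ∈ D, β a ∈ D) (hββ : ∀ a ∈ D, β (β a) = a) (hγ : ∀ a ∈ D, γ a ∈ D)
    (hγ2 : ∀ a ∈ D, ∀ b ∈ D, γ a = γ b → b = a ∨ b = β a) :
    ∃ S ⊆ D, (S : Set G).PairwiseDisjoint (tri o β γ) ∧ D.card ≤ 12 * m * S.card := by
  classical
  set F : Finset (Finset G) := D.powerset.filter
    (fun S => (S : Set G).PairwiseDisjoint (tri o β γ)) with hF
  have hFne : F.Nonempty := ⟨∅, by simp [hF]⟩
  obtain ⟨S, hS, hmax⟩ := Finset.exists_max_image F Finset.card hFne
  rw [hF, Finset.mem_filter, Finset.mem_powerset] at hS
  refine ⟨S, hS.1, hS.2, ?_⟩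
  -- every element of D is in conflict with an element of S
  have hcov : D ⊆ S.biUnion (fun a => D.filter
      (fun b => ¬ Disjoint (tri o β γ a) (tri o β γ b))) := by
    intro b hb
    by_contra hcon
    rw [Finset.mem_biUnion] at hcon
    push Not at hcon
    have h1 : ∀ a ∈ S, Disjoint (tri o β γ a) (tri o β γ b) := by
      intro a ha
      have := hcon a ha
      rw [Finset.mem_filter, not_and, not_not] at this
      exact this hb
    have hbS : b ∉ S := by
      intro hbS
      have h2 := h1 b hbS
      rw [disjoint_self, Finset.bot_eq_empty] at h2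
      have h3 : o b ∈ tri o β γ b := by simp [tri]
      rw [h2] at h3
      exact absurd h3 (Finset.notMem_empty _)
    have h4 : insert b S ∈ F := by
      rw [hF, Finset.mem_filter, Finset.mem_powerset]
      refine ⟨Finset.insert_subset hb hS.1, ?_⟩
      rw [Finset.coe_insert]
      refine hS.2.insert ?_
      intro a ha _
      exact (h1 a ha).symm
    have h5 := hmax _ h4
    rw [Finset.card_insert_of_notMem hbS] at h5
    omega
  have hone : ∀ t, (D.filter (fun b => o (β b) = t)).card ≤ m := by
    intro t
    refine le_trans (Finset.card_le_card_of_injOn β ?_ ?_) (hm t)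
    · intro b hb
      rw [Finset.mem_coe, Finset.mem_filter] at hb ⊢
      exact ⟨hβ b hb.1, hb.2⟩
    · intro b hb c hc hbc
      rw [Finset.mem_coe, Finset.mem_filter] at hb hc
      rw [← hββ b hb.1, hbc, hββ c hc.1]
  have htwo : ∀ t, (D.filter (fun b => o (γ b) = t)).card ≤ 2 * m := by
    intro t
    have h6 : (D.filter (fun b => o (γ b) = t)).card ≤ 2 * (D.filter (fun d => o d = t)).card := by
      refine Finset.card_le_mul_card_image_of_maps_to (f := γ) ?_ 2 ?_
      · intro b hb
        rw [Finset.mem_filter] at hb ⊢
        exact ⟨hγ b hb.1, hb.2⟩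
      · intro c _
        rcases Finset.eq_empty_or_nonempty
          ((D.filter (fun b => o (γ b) = t)).filter (fun b => γ b = c)) with h | ⟨a, ha⟩
        · rw [h]; simp
        · rw [Finset.mem_filter, Finset.mem_filter] at ha
          refine le_trans (Finset.card_le_card (t := {a, β a}) ?_) Finset.card_le_two
          intro b hb
          rw [Finset.mem_filter, Finset.mem_filter] at hb
          have := hγ2 a ha.1.1 b hb.1.1 (by rw [ha.2, hb.2])
          rw [Finset.mem_insert, Finset.mem_singleton]
          exact this
    exact le_trans h6 (Nat.mul_le_mul_left 2 (hm t))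
  have hconf : ∀ a ∈ S, (D.filter
      (fun b => ¬ Disjoint (tri o β γ a) (tri o β γ b))).card ≤ 12 * m := by
    intro a _
    have h7 : D.filter (fun b => ¬ Disjoint (tri o β γ a) (tri o β γ b)) ⊆
        (tri o β γ a).biUnion (fun t => D.filter (fun b => o b = t) ∪
          D.filter (fun b => o (β b) = t) ∪ D.filter (fun b => o (γ b) = t)) := by
      intro b hb
      rw [Finset.mem_filter, Finset.not_disjoint_iff] at hb
      obtain ⟨hbD, t, ht1, ht2⟩ := hb
      rw [Finset.mem_biUnion]
      refine ⟨t, ht1, ?_⟩
      unfold tri at ht2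
      rw [Finset.mem_insert, Finset.mem_insert, Finset.mem_singleton] at ht2
      rw [Finset.mem_union, Finset.mem_union, Finset.mem_filter, Finset.mem_filter,
        Finset.mem_filter]
      rcases ht2 with h | h | h
      · exact Or.inl (Or.inl ⟨hbD, h.symm⟩)
      · exact Or.inl (Or.inr ⟨hbD, h.symm⟩)
      · exact Or.inr ⟨hbD, h.symm⟩
    refine le_trans (Finset.card_le_card h7) ?_
    refine le_trans (Finset.card_biUnion_le_card_mul _ _ (4 * m) ?_) ?_
    · intro t _
      refine le_trans (Finset.card_union_le _ _) ?_
      have h8 := Finset.card_union_le (D.filter (fun b => o b = t))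
        (D.filter (fun b => o (β b) = t))
      have h9 := hm t
      have h10 := hone t
      have h11 := htwo t
      omega
    · have := card_tri_le o β γ a
      nlinarith
  refine le_trans (Finset.card_le_card hcov) ?_
  refine le_trans (Finset.card_biUnion_le_card_mul _ _ (12 * m) hconf) ?_
  rw [mul_comm]

end Pool.Agent.H42.CPD
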