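import Mathlib

/-! # Planar difference sets: triples representing the points outside (MP_a74db3_co) -/

set_option autoImplicit false

namespace Pool.Agent.H42.CPD

open Finset

variable {G : Type*} [AddCommGroup G] [DecidableEq G]

/-- Every nonzero element is a difference of two elements of `D` in exactly one way. -/
def IsPlanar (D : Finset G) : Prop :=
  ∀ g : G, g ≠ 0 → ((D ×ˢ D).filter (fun p => p.1 - p.2 = g)).card = 1

theorem IsPlanar.exists_rep {D : Finset G} (hD : IsPlanar D) {g : G} (hg : g ≠ 0) :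
    ∃ b ∈ D, ∃ c ∈ D, b - c = g := by
  obtain ⟨p, hp⟩ := Finset.card_eq_one.1 (hD g hg)
  have : p ∈ (D ×ˢ D).filter (fun p => p.1 - p.2 = g) := by rw [hp]; exact Finset.mem_singleton_self p
  rw [Finset.mem_filter, Finset.mem_product] at this
  exact ⟨p.1, this.1.1, p.2, this.1.2, this.2⟩

theorem IsPlanar.sidon {D : Finset G} (hD : IsPlanar D) {a b c d : G} (ha : a ∈ D) (hb : b ∈ D)
    (hc : c ∈ D) (hd : d ∈ D) (hab : a ≠ b) (h : a - b = c - d) : a = c ∧ b = d := by
  have hg : a - b ≠ 0 := sub_ne_zero.2 hab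
  obtain ⟨p, hp⟩ := Finset.card_eq_one.1 (hD _ hg)
  have h1 : (a, b) ∈ (D ×ˢ D).filter (fun p => p.1 - p.2 = a - b) := by
    rw [Finset.mem_filter, Finset.mem_product]
    exact ⟨⟨ha, hb⟩, rfl⟩
  have h2 : (c, d) ∈ (D ×ˢ D).filter (fun p => p.1 - p.2 = a - b) := by
    rw [Finset.mem_filter, Finset.mem_product]
    exact ⟨⟨hc, hd⟩, h.symm⟩
  rw [hp, Finset.mem_singleton] at h1 h2
  have := h1.trans h2.symm
  exact ⟨congrArg Prod.fst this, congrArg Prod.snd this⟩

/-- The set rebuilt from a subset `A`. -/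
def Recon (A : Finset G) (x : G) : Prop := x ∈ A ∨ ¬ ∃ a ∈ A, ∃ b ∈ A, ∃ c ∈ A, x = a + b - c

theorem mem_iff_recon {D A : Finset G} (hD : IsPlanar D) (hA : A ⊆ D)
    (hcov : ∀ x, x ∉ D → ∃ a ∈ A, ∃ b ∈ A, ∃ c ∈ A, x = a + b - c) (x : G) :
    x ∈ D ↔ Recon A x := by
  constructor
  · intro hx
    by_contra hcon
    unfold Recon at hcon
    push Not at hcon
    obtain ⟨hxA, a, ha, b, hb, c, hc, h⟩ := hcon
    have hxa : x ≠ a := fun h => hxA (h ▸ ha)
    have h1 : x - a = b - c := by rw [h]; abel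
    have := hD.sidon hx (hA ha) (hA hb) (hA hc) hxa h1
    exact hxA (this.1 ▸ hb)
  · intro h
    by_contra hx
    rcases h with h | h
    · exact hx (hA h)
    · exact h (hcov x hx)

theorem eq_of_same_subset {D E A : Finset G} (hD : IsPlanar D) (hE : IsPlanar E) (hA : A ⊆ D)
    (hA' : A ⊆ E) (hcov : ∀ x, x ∉ D → ∃ a ∈ A, ∃ b ∈ A, ∃ c ∈ A, x = a + b - c)
    (hcov' : ∀ x, x ∉ E → ∃ a ∈ A, ∃ b ∈ A, ∃ c ∈ A, x = a + b - c) : D = E := by
  ext x
  rw [mem_iff_recon hD hA hcov, mem_iff_recon hE hA' hcov']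

/-- For `x ∉ D` there are `β`, `γ` with `x = a + β a - γ a`, `β` an involution of `D`. -/
theorem exists_beta_gamma {D : Finset G} (hD : IsPlanar D) {x : G} (hx : x ∉ D) :
    ∃ β γ : G → G, (∀ a ∈ D, β a ∈ D ∧ γ a ∈ D ∧ x = a + β a - γ a) ∧
      (∀ a ∈ D, β (β a) = a) ∧
      (∀ a ∈ D, ∀ b ∈ D, γ a = γ b → b = a ∨ b = β a) := by
  have h : ∀ a ∈ D, ∃ b ∈ D, ∃ c ∈ D, b - c = x - a := by
    intro a ha
    exact hD.exists_rep (sub_ne_zero.2 fun h => hx (h ▸ ha))
  choose! β hβ γ hγ h3 using h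
  have key : ∀ a ∈ D, β a ∈ D ∧ γ a ∈ D ∧ x = a + β a - γ a := by
    intro a ha
    refine ⟨hβ a ha, hγ a ha, ?_⟩
    have := h3 a ha
    have h4 : x = a + (β a - γ a) := by rw [this]; abel
    rw [h4]
    abel
  have hinv : ∀ a ∈ D, β (β a) = a := by
    intro a ha
    obtain ⟨h1, h2, h4⟩ := key a ha
    obtain ⟨h5, h6, h7⟩ := key (β a) h1
    -- x - β a = a - γ a = β (β a) - γ (β a)
    have hne : a ≠ γ a := by
      intro h8
      apply hx
      rw [h4, ← h8]
      have : a + β a - a = β a := by abel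
      rw [this]
      exact h1
    have h9 : a - γ a = β (β a) - γ (β a) := by
      have e1 : a - γ a = x - β a := by
        rw [h4]
        abel
      have e2 : β (β a) - γ (β a) = x - β a := by
        rw [h7]
        abel
      rw [e1, e2]
    exact (hD.sidon ha h2 h5 h6 hne h9).1.symm
  refine ⟨β, γ, key, hinv, ?_⟩
  intro a ha b hb hab
  obtain ⟨h1, h2, h4⟩ := key a ha
  obtain ⟨h5, h6, h7⟩ := key b hb
  by_cases hba : b = a
  · exact Or.inl hba
  · right
    -- a + β a = b + β b, b - a = β a - β b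
    have h8 : b - a = β a - β b := by
      have e1 : a + β a = x + γ a := by
        rw [h4]
        abel
      have e2 : b + β b = x + γ b := by
        rw [h7]
        abel
      have e3 : a + β a = b + β b := by rw [e1, e2, hab]
      have e4 : β a = b + β b - a := by rw [← e3]; abel
      rw [e4]
      abel
    exact (hD.sidon hb ha h1 h5 hba h8).1

end Pool.Agent.H42.CPD
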