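import Pool.Agent.H42.CPD.Rand
import Pool.Agent.H42.CPD.Trip
import Pool.Agent.H42.CPD.Fam
import Pool.Agent.H58.Mult.Power

/-! # A few classes determine a planar difference set (MP_a74db3_co) -/

set_option autoImplicit false

namespace Pool.Agent.H42.CPD

open Finset

variable {G Q : Type*} [AddCommGroup G] [DecidableEq G] [Fintype G] [DecidableEq Q]

/-- A planar difference set `D` which is a union of classes of `o` contains a union `A` of fewer
than `2 δ |o(D)|` classes such that every `x ∉ D` is `a + b - c` with `a, b, c` in `A`. -/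
theorem exists_det {D : Finset G} (hD : IsPlanar D) (hne : D.Nonempty) (o : G → Q) {m : ℕ}
    (hm : ∀ t, (D.filter (fun d => o d = t)).card ≤ m) {δ : ℝ} (h0 : 0 < δ) (h1 : δ ≤ 1)
    (hsmall : (Fintype.card G : ℝ) * (1 - δ ^ 3) ^ (D.card / (12 * m)) < 1 / 2) :
    ∃ A ⊆ D.image o, (A.card : ℝ) < 2 * δ * (D.image o).card ∧
      ∀ x, x ∉ D → ∃ a, o a ∈ A ∧ ∃ b, o b ∈ A ∧ ∃ c, o c ∈ A ∧ x = a + b - c := by
  classical
  have hex : ∀ x : G, x ∉ D → ∃ (β γ : G → G) (S : Finset G),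
      (∀ a ∈ D, β a ∈ D ∧ γ a ∈ D ∧ x = a + β a - γ a) ∧ S ⊆ D ∧
      (S : Set G).PairwiseDisjoint (tri o β γ) ∧ D.card ≤ 12 * m * S.card := by
    intro x hx
    obtain ⟨β, γ, h2, h3, h4⟩ := exists_beta_gamma hD hx
    obtain ⟨S, hS, hd, hc⟩ := exists_disjoint D o m hm β γ (fun a ha => (h2 a ha).1) h3
      (fun a ha => (h2 a ha).2.1) h4
    exact ⟨β, γ, S, h2, hS, hd, hc⟩
  choose! β γ S hβγ hSD hdis hcard using hex
  obtain ⟨A, hA, hAc, hcov⟩ := exists_subset (κ := G) h0 h1 (Ω := D.image o) (hne.image o)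
    (Finset.univ.filter (fun x => x ∉ D)) S (fun x => tri o (β x) (γ x))
    (by
      intro x hx a ha t ht
      rw [Finset.mem_filter] at hx
      have h2 := hβγ x hx.2 a (hSD x hx.2 ha)
      unfold tri at ht
      rw [Finset.mem_insert, Finset.mem_insert, Finset.mem_singleton] at ht
      rcases ht with h | h | h
      · rw [h]; exact Finset.mem_image_of_mem o (hSD x hx.2 ha)
      · rw [h]; exact Finset.mem_image_of_mem o h2.1
      · rw [h]; exact Finset.mem_image_of_mem o h2.2.1)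
    (by
      intro x hx
      rw [Finset.mem_filter] at hx
      exact hdis x hx.2)
    (by
      intro x _ a _
      exact card_tri_le o (β x) (γ x) a)
    (N0 := D.card / (12 * m))
    (by
      intro x hx
      rw [Finset.mem_filter] at hx
      exact Nat.div_le_of_le_mul (hcard x hx.2))
    (by
      refine lt_of_le_of_lt ?_ hsmall
      have h3 : ((Finset.univ.filter (fun x => x ∉ D)).card : ℝ) ≤ Fintype.card G := by
        exact_mod_cast Finset.card_le_univ _
      refine mul_le_mul_of_nonneg_right h3 (pow_nonneg ?_ _)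
      have := pow_le_one₀ (n := 3) h0.le h1
      linarith)
  refine ⟨A, hA, hAc, ?_⟩
  intro x hx
  obtain ⟨a, ha, hsub⟩ := hcov x (by rw [Finset.mem_filter]; exact ⟨Finset.mem_univ _, hx⟩)
  have h2 := hβγ x hx a (hSD x hx ha)
  refine ⟨a, hsub (by simp [tri]), β x a, hsub (by simp [tri]), γ x a, hsub (by simp [tri]), h2.2.2⟩

/-- The number of planar difference sets which are unions of classes of `o`. -/
theorem card_family_le [Fintype Q] (o : G → Q) {m r : ℕ} {δ : ℝ} (h0 : 0 < δ) (h1 : δ ≤ 1)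
    (𝒟 : Finset (Finset G)) (hpl : ∀ D ∈ 𝒟, IsPlanar D) (hne : ∀ D ∈ 𝒟, D.Nonempty)
    (hsat : ∀ D ∈ 𝒟, ∀ x ∈ D, ∀ y, o y = o x → y ∈ D)
    (hm : ∀ D ∈ 𝒟, ∀ t, (D.filter (fun d => o d = t)).card ≤ m)
    (hsmall : ∀ D ∈ 𝒟, (Fintype.card G : ℝ) * (1 - δ ^ 3) ^ (D.card / (12 * m)) < 1 / 2)
    (hr : ∀ D ∈ 𝒟, 2 * δ * (D.image o).card ≤ (r : ℝ)) :
    𝒟.card ≤ (Fintype.card Q + 1) ^ r := by
  classical
  have hex : ∀ D ∈ 𝒟, ∃ A : Finset Q, A ⊆ D.image o ∧ A.card ≤ r ∧
      ∀ x, x ∉ D → ∃ a, o a ∈ A ∧ ∃ b, o b ∈ A ∧ ∃ c, o c ∈ A ∧ x = a + b - c := by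
    intro D hD
    obtain ⟨A, hA, hc, hcov⟩ := exists_det (hpl D hD) (hne D hD) o (hm D hD) h0 h1 (hsmall D hD)
    refine ⟨A, hA, ?_, hcov⟩
    have : (A.card : ℝ) < r := lt_of_lt_of_le hc (hr D hD)
    exact_mod_cast this.le
  choose! A hA hAr hcov using hex
  have hsub : ∀ D ∈ 𝒟, Finset.univ.filter (fun x => o x ∈ A D) ⊆ D := by
    intro D hD x hx
    rw [Finset.mem_filter] at hx
    obtain ⟨y, hy, hyx⟩ := Finset.mem_image.1 (hA D hD hx.2)
    exact hsat D hD y hy x hyx.symm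
  have hinj : Set.InjOn (fun D => Pool.Agent.H58.Mult.enc r (A D)) (𝒟 : Set (Finset G)) := by
    intro D hD E hE h
    rw [Finset.mem_coe] at hD hE
    have hAE : A D = A E := Pool.Agent.H58.Mult.enc_inj (hAr D hD) (hAr E hE) h
    refine eq_of_same_subset (hpl D hD) (hpl E hE) (hsub D hD) ?_ ?_ ?_
    · rw [hAE]; exact hsub E hE
    · intro x hx
      obtain ⟨a, ha, b, hb, c, hc, h⟩ := hcov D hD x hx
      exact ⟨a, by simpa using ha, b, by simpa using hb, c, by simpa using hc, h⟩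
    · intro x hx
      obtain ⟨a, ha, b, hb, c, hc, h⟩ := hcov E hE x hx
      rw [← hAE] at ha hb hc
      exact ⟨a, by simpa using ha, b, by simpa using hb, c, by simpa using hc, h⟩
  have h2 : 𝒟.card ≤ Fintype.card (Fin r → Option Q) := by
    rw [← Finset.card_univ]
    exact Finset.card_le_card_of_injOn _ (fun _ _ => Finset.mem_univ _) hinj
  rwa [Fintype.card_fun, Fintype.card_option, Fintype.card_fin] at h2

end Pool.Agent.H42.CPD
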