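import Pool.Agent.H42.CPD.Trip
import Pool.Agent.H58.Mult.Pos

/-! # Every class contains a set fixed by the multiplier `p` (MP_a74db3_co) -/

set_option autoImplicit false

namespace Pool.Agent.H42.CPD

open Finset

theorem IsPlanar.image_add {G : Type*} [AddCommGroup G] [DecidableEq G] {D : Finset G}
    (hD : IsPlanar D) (c : G) : IsPlanar (D.image (fun x => x + c)) := by
  intro g hg
  rw [← hD g hg]
  symm
  refine Finset.card_bij (fun p _ => (p.1 + c, p.2 + c)) ?_ ?_ ?_
  · intro p hp
    rw [Finset.mem_filter, Finset.mem_product] at hp ⊢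
    refine ⟨⟨Finset.mem_image_of_mem (fun x => x + c) hp.1.1,
      Finset.mem_image_of_mem (fun x => x + c) hp.1.2⟩, ?_⟩
    rw [← hp.2]
    simp only
    abel
  · intro p _ r _ h
    rw [Prod.mk.injEq] at h
    exact Prod.ext (add_right_cancel h.1) (add_right_cancel h.2)
  · rintro ⟨a, b⟩ hp
    rw [Finset.mem_filter, Finset.mem_product] at hp
    obtain ⟨x, hx, hxa⟩ := Finset.mem_image.1 hp.1.1
    obtain ⟨y, hy, hyb⟩ := Finset.mem_image.1 hp.1.2
    simp only at hxa hyb
    refine ⟨(x, y), ?_, ?_⟩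
    · rw [Finset.mem_filter, Finset.mem_product]
      refine ⟨⟨hx, hy⟩, ?_⟩
      rw [← hp.2]
      simp only
      rw [← hxa, ← hyb]
      abel
    · simp only
      rw [hxa, hyb]

variable {v : ℕ} [NeZero v]

theorem isDS_of_isPlanar {D : Finset (ZMod v)} (hD : IsPlanar D) : Pool.Agent.H58.Mult.IsDS D 1 := by
  intro α hα
  have h := hD α hα
  have h2 : (((D ×ˢ D).filter (fun p => p.1 - p.2 = α)).card : ℤ) = 1 := by exact_mod_cast h
  have h3 : Pool.Agent.H58.Mult.cnt D 1 α
      = (((D ×ˢ D).filter (fun p => p.1 - p.2 = α)).card : ℤ) := by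
    unfold Pool.Agent.H58.Mult.cnt
    rw [Finset.card_filter, Finset.sum_product]
    push_cast
    simp only [one_mul]
  rw [h3, h2]

theorem exists_fixed {q p k : ℕ} (hp : p.Prime) (hk : 1 ≤ k) (hq : q = p ^ k)
    (hv : v = q ^ 2 + q + 1) {D : Finset (ZMod v)} (hD : IsPlanar D) (hcard : D.card = q + 1)
    (u : (ZMod v)ˣ) (hu : (u : ZMod v) = p) :
    ∃ c : ZMod v, ∀ x ∈ D.image (fun x => x + c), (u : ZMod v) * x ∈ D.image (fun x => x + c) := by
  classical
  have hq0 : 2 ≤ q := by
    rw [hq]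
    exact le_trans hp.two_le (Nat.le_self_pow (by omega) p)
  have hzero : ((q : ZMod v)) ^ 2 + q + 1 = 0 := by
    have : ((q ^ 2 + q + 1 : ℕ) : ZMod v) = 0 := by rw [← hv]; exact ZMod.natCast_self v
    push_cast at this
    exact this
  set c : ZMod v := (q : ZMod v) * ∑ x ∈ D, x with hc
  refine ⟨c, ?_⟩
  set E := D.image (fun x => x + c) with hE
  have hEpl : IsPlanar E := hD.image_add c
  have hEcard : E.card = q + 1 := by
    rw [hE, Finset.card_image_of_injective _ (add_left_injective c), hcard]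
  have hEsum : ∑ x ∈ E, x = 0 := by
    rw [hE, Finset.sum_image (fun x _ y _ h => add_right_cancel h), Finset.sum_add_distrib,
      Finset.sum_const, hcard, hc, nsmul_eq_mul]
    push_cast
    linear_combination (∑ x ∈ D, x) * hzero
  have hpv : ¬ p ∣ v := by
    intro h
    have h1 : p ∣ q ^ 2 + q := by
      have : p ∣ q := by rw [hq]; exact dvd_pow_self p (by omega)
      exact dvd_add (dvd_pow this (by norm_num)) this
    have h2 : p ∣ 1 := by
      rw [hv] at h
      exact (Nat.dvd_add_right h1).1 h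
    exact hp.one_lt.ne' (Nat.dvd_one.1 h2)
  have hval : (u : ZMod v).val ≡ p ^ 1 [MOD v] := by
    rw [hu, pow_one, ZMod.val_natCast]
    exact Nat.mod_modEq p v
  obtain ⟨s, hs⟩ := Pool.Agent.H58.Mult.multiplier_of_large (D := E) (l := 1)
    (isDS_of_isPlanar hEpl) (by norm_num) (by rw [hEcard]; push_cast; omega) hp (a := 0) (w := v)
    (by simp) hpv u hval (b := k) (by omega)
    (by rw [hEcard, hq]; push_cast; simp) (by
      rw [Nat.sub_zero]
      exact_mod_cast lt_of_lt_of_le hp.one_lt (Nat.le_self_pow (by omega) p))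
  have hsum1 : ∑ x ∈ E.image (fun x => (u : ZMod v) * x), x = 0 := by
    rw [Finset.sum_image (fun x _ y _ h => u.isUnit.mul_left_cancel h), ← Finset.mul_sum, hEsum,
      mul_zero]
  have hsum2 : ∑ x ∈ E.image (fun x => x + s), x = ((q : ZMod v) + 1) * s := by
    rw [Finset.sum_image (fun x _ y _ h => add_right_cancel h), Finset.sum_add_distrib, hEsum,
      Finset.sum_const, hEcard, nsmul_eq_mul]
    push_cast
    ring
  have hs0 : s = 0 := by
    have h1 : ((q : ZMod v) + 1) * s = 0 := by rw [← hsum2, ← hs, hsum1]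
    linear_combination (-(q : ZMod v)) * h1 + s * hzero
  rw [hs0] at hs
  simp only [add_zero, Finset.image_id'] at hs
  intro x hx
  have : (u : ZMod v) * x ∈ E.image (fun x => (u : ZMod v) * x) := Finset.mem_image_of_mem _ hx
  rwa [hs] at this

end Pool.Agent.H42.CPD
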