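import Mathlib

/-! # Numerical estimates for the number of classes (MP_a74db3_co) -/

set_option autoImplicit false

namespace Pool.Agent.H42.CPD

theorem pow_four_le (k : ℕ) : k ^ 4 ≤ 25 * 2 ^ k := by
  induction k using Nat.strong_induction_on with
  | _ k ih =>
    rcases Nat.lt_or_ge k 8 with h | h
    · interval_cases k <;> norm_num
    · obtain ⟨n, rfl⟩ : ∃ n, k = n + 1 := ⟨k - 1, by omega⟩
      have h1 := ih n (by omega)
      have h2 : (n + 1) ^ 4 ≤ 2 * n ^ 4 := by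
        have hn : 7 ≤ n := by omega
        nlinarith [Nat.mul_le_mul hn hn, Nat.mul_le_mul (Nat.mul_le_mul hn hn) (Nat.le_refl n),
          Nat.mul_le_mul hn (Nat.le_refl (n ^ 3)), Nat.mul_le_mul hn (Nat.le_refl (n ^ 2)),
          Nat.mul_le_mul hn (Nat.le_refl n)]
      rw [pow_succ 2 n]
      omega

theorem sq_le_sqrt {q p k : ℕ} (hp : 2 ≤ p) (hq : q = p ^ k) : (k : ℝ) ^ 2 ≤ 5 * Real.sqrt q := by
  have h1 : (k : ℝ) ^ 4 ≤ 25 * q := by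
    have h2 : k ^ 4 ≤ 25 * q := by
      rw [hq]
      exact le_trans (pow_four_le k) (Nat.mul_le_mul_left 25 (Nat.pow_le_pow_left hp k))
    exact_mod_cast h2
  have h3 : (k : ℝ) ^ 2 = Real.sqrt ((k : ℝ) ^ 4) := by
    rw [show (k : ℝ) ^ 4 = ((k : ℝ) ^ 2) ^ 2 by ring, Real.sqrt_sq (by positivity)]
  rw [h3]
  have h4 : 5 * Real.sqrt q = Real.sqrt (25 * q) := by
    rw [Real.sqrt_mul (by norm_num), show (25 : ℝ) = 5 ^ 2 by norm_num, Real.sqrt_sq (by norm_num)]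
  rw [h4]
  exact Real.sqrt_le_sqrt h1

/-- The number of orbits is at most `12 q / k`. -/
theorem orbits_bound {q p k c : ℕ} (hp : 2 ≤ p) (hk : 1 ≤ k) (hq : q = p ^ k)
    (h : k * c ≤ (q + 1) + k * (k * (Nat.sqrt q + 1))) : (c : ℝ) ≤ 12 * ((q : ℝ) / k) := by
  have hk0 : (0 : ℝ) < k := by exact_mod_cast hk
  have hq2 : 2 ≤ q := by
    rw [hq]
    exact le_trans hp (Nat.le_self_pow (by omega) p)
  have hq2' : (2 : ℝ) ≤ q := by exact_mod_cast hq2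
  have h1 : (k : ℝ) * c ≤ (q + 1) + k * (k * (Nat.sqrt q + 1)) := by exact_mod_cast h
  have h2 : (Nat.sqrt q : ℝ) ≤ Real.sqrt q := Real.nat_sqrt_le_real_sqrt
  have h3 := sq_le_sqrt hp hq
  have h4 : Real.sqrt q * Real.sqrt q = q := Real.mul_self_sqrt (by positivity)
  have h5 : 1 ≤ Real.sqrt q := by
    rw [Real.one_le_sqrt]
    linarith
  have h6 : (k : ℝ) * (k * (Nat.sqrt q + 1)) ≤ 10 * q := by
    have e1 : (k : ℝ) * (k * (Nat.sqrt q + 1)) = (k : ℝ) ^ 2 * (Nat.sqrt q + 1) := by ring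
    rw [e1]
    calc (k : ℝ) ^ 2 * (Nat.sqrt q + 1) ≤ (5 * Real.sqrt q) * (Real.sqrt q + Real.sqrt q) := by
          refine mul_le_mul h3 (by linarith) (by positivity) (by positivity)
      _ = 10 * (Real.sqrt q * Real.sqrt q) := by ring
      _ = 10 * q := by rw [h4]
  rw [← mul_div_assoc, le_div_iff₀ hk0]
  linarith

/-- The key inequality: `a = q / k`, `L = log q`, `X = (a L ^ 2) ^ (2 / 3)`. -/
theorem cube_X {a L : ℝ} (ha : 0 ≤ a) :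
    ((a * L ^ 2) ^ (2 / 3 : ℝ)) ^ 3 = a ^ 2 * L ^ 4 := by
  have h0 : 0 ≤ a * L ^ 2 := by positivity
  rw [← Real.rpow_natCast, ← Real.rpow_mul h0]
  norm_num
  ring

theorem le_of_cube {x y : ℝ} (hy : 0 ≤ y) (h : x ^ 3 ≤ y ^ 3) : x ≤ y :=
  le_of_pow_le_pow_left₀ (by norm_num) hy h

theorem case_one {a L δ X : ℝ} (ha : 0 ≤ a) (hL : 0 ≤ L) (hX : 0 ≤ X)
    (hX3 : X ^ 3 = a ^ 2 * L ^ 4) (hδ : δ ^ 3 * a = 360 * L) : δ * a * L ≤ 8 * X := by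
  refine le_of_cube (by positivity) ?_
  have h1 : (δ * a * L) ^ 3 = 360 * (a ^ 2 * L ^ 4) := by
    calc (δ * a * L) ^ 3 = (δ ^ 3 * a) * (a ^ 2 * L ^ 3) := by ring
      _ = 360 * (a ^ 2 * L ^ 4) := by rw [hδ]; ring
  rw [h1, ← hX3]
  have : 0 ≤ X ^ 3 := by positivity
  nlinarith

theorem case_two {a L X : ℝ} (ha : 0 ≤ a) (hL : 0 ≤ L) (hX : 0 ≤ X)
    (hX3 : X ^ 3 = a ^ 2 * L ^ 4) (h : a ≤ 360 * L) : a * L ≤ 8 * X := by
  refine le_of_cube (by positivity) ?_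
  have h1 : (a * L) ^ 3 = a * (a ^ 2 * L ^ 3) := by ring
  have h2 : a * (a ^ 2 * L ^ 3) ≤ (360 * L) * (a ^ 2 * L ^ 3) :=
    mul_le_mul_of_nonneg_right h (by positivity)
  have h3 : (360 * L) * (a ^ 2 * L ^ 3) = 360 * X ^ 3 := by rw [hX3]; ring
  have : 0 ≤ X ^ 3 := by positivity
  nlinarith

theorem L_le {a L X : ℝ} (ha : 1 ≤ a) (hL : 1 / 2 ≤ L) (hX : 0 ≤ X)
    (hX3 : X ^ 3 = a ^ 2 * L ^ 4) : L ≤ 2 * X := by
  refine le_of_cube (by positivity) ?_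
  have h1 : (2 * X) ^ 3 = 8 * (a ^ 2 * L ^ 4) := by rw [mul_pow, hX3]; norm_num
  rw [h1]
  have h2 : (1 : ℝ) ≤ a ^ 2 := one_le_pow₀ ha
  have hL0 : 0 ≤ L := by linarith
  have h3 : L ^ 4 ≤ a ^ 2 * L ^ 4 := by
    have : 0 ≤ L ^ 4 := by positivity
    nlinarith
  have h4 : L ^ 3 * (1 / 2) ≤ L ^ 3 * L := mul_le_mul_of_nonneg_left hL (by positivity)
  have h5 : L ^ 3 * L = L ^ 4 := by ring
  have h6 : 0 ≤ L ^ 3 := by positivity
  linarith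

/-- `v (1 - δ^3)^N < 1/2` when `δ^3 N ≥ 5 log q` and `v ≤ 2 q ^ 2`. -/
theorem small_of {q v N : ℕ} {δ : ℝ} (h0 : 0 ≤ δ) (h1 : δ ≤ 1) (hq : 2 ≤ q) (hv : v ≤ 2 * q ^ 2)
    (h : 5 * Real.log q ≤ δ ^ 3 * N) : (v : ℝ) * (1 - δ ^ 3) ^ N < 1 / 2 := by
  have hq2 : (2 : ℝ) ≤ q := by exact_mod_cast hq
  have hq0 : (0 : ℝ) < q := by linarith
  have hδ : 0 ≤ 1 - δ ^ 3 := by
    have := pow_le_one₀ (n := 3) h0 h1
    linarith
  have h2 : (1 - δ ^ 3) ^ N ≤ Real.exp (-(5 * Real.log q)) := by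
    calc (1 - δ ^ 3) ^ N ≤ (Real.exp (-(δ ^ 3))) ^ N := by
          refine pow_le_pow_left₀ hδ ?_ N
          have := Real.add_one_le_exp (-(δ ^ 3))
          linarith
      _ = Real.exp (-(δ ^ 3 * N)) := by
          rw [← Real.exp_nat_mul]
          congr 1
          ring
      _ ≤ Real.exp (-(5 * Real.log q)) := Real.exp_le_exp.2 (by linarith)
  have h3 : Real.exp (-(5 * Real.log q)) = ((q : ℝ) ^ 5)⁻¹ := by
    rw [Real.exp_neg]
    congr 1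
    have : 5 * Real.log q = Real.log ((q : ℝ) ^ 5) := by rw [Real.log_pow]; norm_num
    rw [this, Real.exp_log (by positivity)]
  rw [h3] at h2
  have h4 : (v : ℝ) ≤ 2 * (q : ℝ) ^ 2 := by exact_mod_cast hv
  calc (v : ℝ) * (1 - δ ^ 3) ^ N ≤ (2 * (q : ℝ) ^ 2) * ((q : ℝ) ^ 5)⁻¹ :=
        mul_le_mul h4 h2 (pow_nonneg hδ _) (by positivity)
    _ = 2 / (q : ℝ) ^ 3 := by
        field_simp
    _ < 1 / 2 := by
        rw [div_lt_div_iff₀ (by positivity) (by norm_num)]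
        have : (2 : ℝ) ^ 3 ≤ (q : ℝ) ^ 3 := pow_le_pow_left₀ (by norm_num) hq2 3
        norm_num at this ⊢
        linarith

end Pool.Agent.H42.CPD
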