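import Pool.Agent.H42.CPD.Trip

/-! # Orbits of a multiplier inside a planar difference set (MP_a74db3_co) -/

set_option autoImplicit false

namespace Pool.Agent.H42.CPD

open Finset

variable {v : ℕ} [NeZero v]

/-- `x` and `y` are in one orbit of multiplication by `u`, `u ^ m = 1`. -/
def orbSetoid (u : (ZMod v)ˣ) {m : ℕ} (h0 : 0 < m) (hu : u ^ m = 1) : Setoid (ZMod v) where
  r x y := ∃ i : ℕ, y = ((u ^ i : (ZMod v)ˣ) : ZMod v) * x
  iseqv := by
    refine ⟨fun x => ⟨0, by simp⟩, ?_, ?_⟩
    · rintro x y ⟨i, rfl⟩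
      refine ⟨m * i - i, ?_⟩
      have h1 : i ≤ m * i := Nat.le_mul_of_pos_left i h0
      have h2 : u ^ (m * i - i) * u ^ i = 1 := by
        rw [← pow_add, Nat.sub_add_cancel h1, pow_mul, hu, one_pow]
      rw [← mul_assoc, ← Units.val_mul, h2]
      simp
    · rintro x y z ⟨i, rfl⟩ ⟨j, rfl⟩
      refine ⟨j + i, ?_⟩
      rw [← mul_assoc, ← Units.val_mul, ← pow_add]

/-- The class of `x`. -/
def orb (u : (ZMod v)ˣ) {m : ℕ} (h0 : 0 < m) (hu : u ^ m = 1) (x : ZMod v) :
    Quotient (orbSetoid u h0 hu) := Quotient.mk (orbSetoid u h0 hu) x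

theorem orb_eq {u : (ZMod v)ˣ} {m : ℕ} {h0 : 0 < m} {hu : u ^ m = 1} {x y : ZMod v} :
    orb u h0 hu x = orb u h0 hu y ↔ ∃ i : ℕ, y = ((u ^ i : (ZMod v)ˣ) : ZMod v) * x :=
  Quotient.eq (r := orbSetoid u h0 hu)

theorem pow_mul_mem {D : Finset (ZMod v)} {u : (ZMod v)ˣ}
    (hD : ∀ x ∈ D, (u : ZMod v) * x ∈ D) (i : ℕ) : ∀ x ∈ D, ((u ^ i : (ZMod v)ˣ) : ZMod v) * x ∈ D := by
  induction i with
  | zero => intro x hx; simpa using hx
  | succ i ih =>
    intro x hx
    rw [pow_succ', Units.val_mul, mul_assoc]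
    exact hD _ (ih x hx)

theorem orb_sat {D : Finset (ZMod v)} {u : (ZMod v)ˣ} {m : ℕ} (h0 : 0 < m) (hu : u ^ m = 1)
    (hD : ∀ x ∈ D, (u : ZMod v) * x ∈ D) :
    ∀ x ∈ D, ∀ y, orb u h0 hu y = orb u h0 hu x → y ∈ D := by
  intro x hx y h
  obtain ⟨i, hi⟩ := orb_eq.1 h.symm
  rw [hi]
  exact pow_mul_mem hD i x hx

theorem orb_fibre [DecidableEq (ZMod v)] {u : (ZMod v)ˣ} {m : ℕ} (h0 : 0 < m) (hu : u ^ m = 1)
    [DecidableEq (Quotient (orbSetoid u h0 hu))]
    (D : Finset (ZMod v)) (t : Quotient (orbSetoid u h0 hu)) :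
    (D.filter (fun d => orb u h0 hu d = t)).card ≤ m := by
  classical
  rcases Finset.eq_empty_or_nonempty (D.filter (fun d => orb u h0 hu d = t)) with h | ⟨a, ha⟩
  · rw [h]; simp
  · rw [Finset.mem_filter] at ha
    calc (D.filter (fun d => orb u h0 hu d = t)).card
        ≤ ((Finset.range m).image (fun i => ((u ^ i : (ZMod v)ˣ) : ZMod v) * a)).card := by
          refine Finset.card_le_card ?_
          intro b hb
          rw [Finset.mem_filter] at hb
          obtain ⟨i, hi⟩ := orb_eq.1 (ha.2.trans hb.2.symm)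
          rw [Finset.mem_image]
          refine ⟨i % m, Finset.mem_range.2 (Nat.mod_lt _ h0), ?_⟩
          rw [hi]
          congr 2
          nth_rewrite 2 [← Nat.div_add_mod i m]
          rw [pow_add, pow_mul, hu, one_pow, one_mul]
      _ ≤ (Finset.range m).card := Finset.card_image_le
      _ = m := Finset.card_range m

/-- At most `sqrt N + 1` elements of a planar difference set are killed by `N ≥ 1`. -/
theorem card_killed {D : Finset (ZMod v)} (hD : IsPlanar D) {N : ℕ} (hN : 0 < N) :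
    (D.filter (fun x => N • x = 0)).card ≤ Nat.sqrt N + 1 := by
  classical
  set S := D.filter (fun x => N • x = 0) with hS
  have h1 : S.offDiag.card ≤ ((Finset.univ.filter (fun x : ZMod v => N • x = 0)).erase 0).card := by
    refine Finset.card_le_card_of_injOn (fun p => p.1 - p.2) ?_ ?_
    · intro p hp
      rw [Finset.mem_coe, Finset.mem_offDiag] at hp
      rw [Finset.mem_coe, Finset.mem_erase, Finset.mem_filter]
      have h2 := (Finset.mem_filter.1 hp.1).2
      have h3 := (Finset.mem_filter.1 hp.2.1).2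
      refine ⟨sub_ne_zero.2 hp.2.2, Finset.mem_univ _, ?_⟩
      rw [smul_sub, h2, h3, sub_zero]
    · intro p hp r hr hpr
      rw [Finset.mem_coe, Finset.mem_offDiag] at hp hr
      have h4 := hD.sidon (Finset.mem_filter.1 hp.1).1 (Finset.mem_filter.1 hp.2.1).1
        (Finset.mem_filter.1 hr.1).1 (Finset.mem_filter.1 hr.2.1).1 hp.2.2 hpr
      exact Prod.ext h4.1 h4.2
  have h5 : (Finset.univ.filter (fun x : ZMod v => N • x = 0)).card ≤ N := by
    convert IsAddCyclic.card_nsmul_eq_zero_le (α := ZMod v) hN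
  have h6 : ((Finset.univ.filter (fun x : ZMod v => N • x = 0)).erase 0).card ≤ N - 1 := by
    rw [Finset.card_erase_of_mem (by simp)]
    omega
  rw [Finset.offDiag_card] at h1
  have h7 : S.card * S.card - S.card ≤ N - 1 := h1.trans h6
  by_contra hcon
  push Not at hcon
  have h8 : N < (Nat.sqrt N + 1) * (Nat.sqrt N + 1) := Nat.lt_succ_sqrt N
  have h9 : (Nat.sqrt N + 1) * (Nat.sqrt N + 1) ≤ (S.card - 1) * S.card :=
    Nat.mul_le_mul (by omega) (by omega)
  have h10 : (S.card - 1) * S.card = S.card * S.card - S.card := by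
    rw [Nat.sub_mul, one_mul]
  omega

/-- The number of orbits of the multiplier `p` in a planar difference set of `ZMod v`. -/
theorem card_orbits {D : Finset (ZMod v)} (hD : IsPlanar D) {u : (ZMod v)ˣ} {m : ℕ} (h0 : 0 < m)
    (hu : u ^ m = 1) [DecidableEq (Quotient (orbSetoid u h0 hu))]
    (hinv : ∀ x ∈ D, (u : ZMod v) * x ∈ D) {p k : ℕ} (hp : 2 ≤ p) (hk : 1 ≤ k)
    (hup : (u : ZMod v) = p) :
    k * (D.image (orb u h0 hu)).card ≤ D.card + k * (k * (Nat.sqrt (p ^ k) + 1)) := by
  classical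
  set short : ZMod v → Prop := fun x => ∃ j, 1 ≤ j ∧ j < k ∧
    ((u ^ j : (ZMod v)ˣ) : ZMod v) * x = x with hshort
  have hcardS : (D.filter short).card ≤ k * (Nat.sqrt (p ^ k) + 1) := by
    have h1 : D.filter short ⊆ (Finset.Ico 1 k).biUnion
        (fun j => D.filter (fun x => (p ^ j - 1) • x = 0)) := by
      intro x hx
      rw [Finset.mem_filter] at hx
      obtain ⟨hxD, j, hj1, hjk, hj⟩ := hx
      rw [Finset.mem_biUnion]
      refine ⟨j, Finset.mem_Ico.2 ⟨hj1, hjk⟩, ?_⟩
      rw [Finset.mem_filter]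
      refine ⟨hxD, ?_⟩
      rw [nsmul_eq_mul, Nat.cast_sub (Nat.one_le_pow _ _ (by omega)), Nat.cast_pow, Nat.cast_one,
        ← hup, ← Units.val_pow_eq_pow_val, sub_mul, one_mul, hj, sub_self]
    refine le_trans (Finset.card_le_card h1) ?_
    refine le_trans (Finset.card_biUnion_le_card_mul _ _ (Nat.sqrt (p ^ k) + 1) ?_) ?_
    · intro j hj
      rw [Finset.mem_Ico] at hj
      have h2 : 2 ≤ p ^ j := le_trans hp (Nat.le_self_pow (by omega) p)
      refine le_trans (card_killed hD (by omega)) ?_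
      have h3 : Nat.sqrt (p ^ j - 1) ≤ Nat.sqrt (p ^ k) := by
        refine Nat.sqrt_le_sqrt ?_
        have : p ^ j ≤ p ^ k := Nat.pow_le_pow_right (by omega) hj.2.le
        omega
      omega
    · refine Nat.mul_le_mul_right _ ?_
      rw [Nat.card_Ico]
      omega
  have hcancel : ∀ (i : ℕ) (x y : ZMod v), ((u ^ i : (ZMod v)ˣ) : ZMod v) * x
      = ((u ^ i : (ZMod v)ˣ) : ZMod v) * y → x = y := fun i x y h => (u ^ i).isUnit.mul_left_cancel h
  have hlong : k * ((D.filter (fun x => ¬ short x)).image (orb u h0 hu)).card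
      ≤ (D.filter (fun x => ¬ short x)).card := by
    refine Finset.mul_card_image_le_card _ k ?_
    intro t ht
    obtain ⟨x, hx, rfl⟩ := Finset.mem_image.1 ht
    rw [Finset.mem_filter] at hx
    have hinj : Set.InjOn (fun i : ℕ => ((u ^ i : (ZMod v)ˣ) : ZMod v) * x)
        (Finset.range k : Set ℕ) := by
      have key : ∀ a b : ℕ, a < b → b < k → ((u ^ a : (ZMod v)ˣ) : ZMod v) * x
          ≠ ((u ^ b : (ZMod v)ˣ) : ZMod v) * x := by
        intro a b hab hbk h
        apply hx.2
        refine ⟨b - a, by omega, by omega, ?_⟩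
        have h4 : u ^ b = u ^ a * u ^ (b - a) := by rw [← pow_add]; congr 1; omega
        rw [h4, Units.val_mul, mul_assoc] at h
        exact (hcancel a _ _ h).symm
      intro a ha b hb hab
      rw [Finset.mem_coe, Finset.mem_range] at ha hb
      simp only at hab
      rcases Nat.lt_trichotomy a b with h | h | h
      · exact absurd hab (key a b h hb)
      · exact h
      · exact absurd hab.symm (key b a h ha)
    have hsub : (Finset.range k).image (fun i : ℕ => ((u ^ i : (ZMod v)ˣ) : ZMod v) * x) ⊆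
        (D.filter (fun x => ¬ short x)).filter (fun d => orb u h0 hu d = orb u h0 hu x) := by
      intro y hy
      obtain ⟨i, _, rfl⟩ := Finset.mem_image.1 hy
      rw [Finset.mem_filter, Finset.mem_filter]
      refine ⟨⟨pow_mul_mem hinv i x hx.1, ?_⟩, (orb_eq.2 ⟨i, rfl⟩).symm⟩
      rintro ⟨j, hj1, hj2, hj3⟩
      apply hx.2
      refine ⟨j, hj1, hj2, ?_⟩
      apply hcancel i
      rw [← mul_assoc, ← Units.val_mul, mul_comm (u ^ i) (u ^ j), Units.val_mul, mul_assoc]
      exact hj3
    have := Finset.card_le_card hsub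
    rwa [Finset.card_image_of_injOn hinj, Finset.card_range] at this
  have hunion : D.image (orb u h0 hu) = (D.filter short).image (orb u h0 hu) ∪
      (D.filter (fun x => ¬ short x)).image (orb u h0 hu) := by
    rw [← Finset.image_union, Finset.filter_union_filter_not_eq]
  have h5 : (D.image (orb u h0 hu)).card ≤ (D.filter short).card +
      ((D.filter (fun x => ¬ short x)).image (orb u h0 hu)).card := by
    rw [hunion]
    refine le_trans (Finset.card_union_le _ _) ?_
    exact Nat.add_le_add_right Finset.card_image_le _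
  have h6 : (D.filter (fun x => ¬ short x)).card ≤ D.card := Finset.card_filter_le _ _
  calc k * (D.image (orb u h0 hu)).card
      ≤ k * ((D.filter short).card +
        ((D.filter (fun x => ¬ short x)).image (orb u h0 hu)).card) := Nat.mul_le_mul_left k h5
    _ = k * (D.filter short).card +
        k * ((D.filter (fun x => ¬ short x)).image (orb u h0 hu)).card := by ring
    _ ≤ k * (k * (Nat.sqrt (p ^ k) + 1)) + D.card :=
        Nat.add_le_add (Nat.mul_le_mul_left k hcardS) (hlong.trans h6)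
    _ = D.card + k * (k * (Nat.sqrt (p ^ k) + 1)) := by ring

end Pool.Agent.H42.CPD
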