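import Pool.Agent.H42.CPD.Det
import Pool.Agent.H42.CPD.Orb
import Pool.Agent.H42.CPD.Norm
import Pool.Agent.H42.CPD.Num

/-! # The number of classes of cyclic planar difference sets (MP_a74db3_co) -/

set_option autoImplicit false

namespace Pool.Agent.H42.CPD

open Finset

/-- A family of saturated finite sets is not larger than the number of sets of classes. -/
theorem card_family_trivial {G Q : Type*} [Fintype G] [DecidableEq G] [DecidableEq Q] [Fintype Q]
    (o : G → Q) {r : ℕ} (𝒟 : Finset (Finset G))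
    (hsat : ∀ D ∈ 𝒟, ∀ x ∈ D, ∀ y, o y = o x → y ∈ D) (hr : ∀ D ∈ 𝒟, (D.image o).card ≤ r) :
    𝒟.card ≤ (Fintype.card Q + 1) ^ r := by
  classical
  have hinj : Set.InjOn (fun D : Finset G => Pool.Agent.H58.Mult.enc r (D.image o))
      (𝒟 : Set (Finset G)) := by
    intro D hD E hE h
    rw [Finset.mem_coe] at hD hE
    have hAE : D.image o = E.image o := Pool.Agent.H58.Mult.enc_inj (hr D hD) (hr E hE) h
    ext x
    constructor
    · intro hx
      have : o x ∈ E.image o := hAE ▸ Finset.mem_image_of_mem o hx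
      obtain ⟨y, hy, hyx⟩ := Finset.mem_image.1 this
      exact hsat E hE y hy x hyx.symm
    · intro hx
      have : o x ∈ D.image o := hAE.symm ▸ Finset.mem_image_of_mem o hx
      obtain ⟨y, hy, hyx⟩ := Finset.mem_image.1 this
      exact hsat D hD y hy x hyx.symm
  have h2 : 𝒟.card ≤ Fintype.card (Fin r → Option Q) := by
    rw [← Finset.card_univ]
    exact Finset.card_le_card_of_injOn _ (fun _ _ => Finset.mem_univ _) hinj
  rwa [Fintype.card_fun, Fintype.card_option, Fintype.card_fin] at h2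

/-- The number of planar difference sets of order `q = p ^ k` in `ZMod (q ^ 2 + q + 1)` fixed by
multiplication by `p`. -/
theorem card_fixed_le {p k q v : ℕ} (hp : p.Prime) (hk : 1 ≤ k) (hq : q = p ^ k)
    (hv : v = q ^ 2 + q + 1) [NeZero v] (𝒟 : Finset (Finset (ZMod v)))
    (hpl : ∀ D ∈ 𝒟, IsPlanar D) (hcard : ∀ D ∈ 𝒟, D.card = q + 1)
    (hinv : ∀ D ∈ 𝒟, ∀ x ∈ D, (p : ZMod v) * x ∈ D) :
    (𝒟.card : ℝ) ≤
      Real.exp (600 * ((q : ℝ) / k * Real.log q ^ 2) ^ (2 / 3 : ℝ)) := by
  classical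
  have hq2 : 2 ≤ q := by
    rw [hq]
    exact le_trans hp.two_le (Nat.le_self_pow (by omega) p)
  have hq2' : (2 : ℝ) ≤ q := by exact_mod_cast hq2
  have hk0 : (0 : ℝ) < k := by exact_mod_cast hk
  have hcop : Nat.Coprime p v := by
    rw [Nat.Prime.coprime_iff_not_dvd hp]
    intro h
    have h1 : p ∣ q ^ 2 + q := by
      have : p ∣ q := by rw [hq]; exact dvd_pow_self p (by omega)
      exact dvd_add (dvd_pow this (by norm_num)) this
    have h2 : p ∣ 1 := by
      rw [hv] at h
      exact (Nat.dvd_add_right h1).1 h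
    exact hp.one_lt.ne' (Nat.dvd_one.1 h2)
  set u : (ZMod v)ˣ := ZMod.unitOfCoprime p hcop with hu_def
  have hup : (u : ZMod v) = p := ZMod.coe_unitOfCoprime p hcop
  have h0 : 0 < 3 * k := by omega
  have hu : u ^ (3 * k) = 1 := by
    apply Units.ext
    rw [Units.val_pow_eq_pow_val, hup, Units.val_one]
    have h1 : ((q : ZMod v)) ^ 2 + q + 1 = 0 := by
      have : ((q ^ 2 + q + 1 : ℕ) : ZMod v) = 0 := by rw [← hv]; exact ZMod.natCast_self v
      push_cast at this
      exact this
    have h2 : (p : ZMod v) ^ (3 * k) = (q : ZMod v) ^ 3 := by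
      rw [hq]
      push_cast
      rw [← pow_mul]
      congr 1
      ring
    rw [h2]
    linear_combination ((q : ZMod v) - 1) * h1
  set o := orb u h0 hu with ho
  have : DecidableEq (Quotient (orbSetoid u h0 hu)) := Classical.decEq _
  have : Fintype (Quotient (orbSetoid u h0 hu)) :=
    Fintype.ofFinite _
  have hQ : Fintype.card (Quotient (orbSetoid u h0 hu)) ≤ v := by
    have h1 := Fintype.card_le_of_surjective (Quotient.mk (orbSetoid u h0 hu))
      Quotient.mk_surjective
    rwa [ZMod.card] at h1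
  have hsat : ∀ D ∈ 𝒟, ∀ x ∈ D, ∀ y, o y = o x → y ∈ D := by
    intro D hD
    refine orb_sat h0 hu ?_
    intro x hx
    rw [hup]
    exact hinv D hD x hx
  have horb : ∀ D ∈ 𝒟, ((D.image o).card : ℝ) ≤ 12 * ((q : ℝ) / k) := by
    intro D hD
    refine orbits_bound hp.two_le hk hq ?_
    have := card_orbits (hpl D hD) h0 hu (fun x hx => by rw [hup]; exact hinv D hD x hx)
      hp.two_le hk hup
    rw [hcard D hD, ← hq] at this
    exact this
  -- numbers
  set a : ℝ := (q : ℝ) / k with ha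
  set L : ℝ := Real.log q with hL
  set X : ℝ := (a * L ^ 2) ^ (2 / 3 : ℝ) with hX
  have hkq : (k : ℝ) ≤ q := by
    have : k ≤ q := by
      rw [hq]
      exact (Nat.lt_pow_self hp.one_lt).le
    exact_mod_cast this
  have ha1 : 1 ≤ a := by
    rw [ha, le_div_iff₀ hk0]
    linarith
  have hLhalf : 1 / 2 ≤ L := by
    have h1 : Real.log 2 ≤ L := Real.log_le_log (by norm_num) hq2'
    have h2 := Real.log_two_gt_d9
    linarith
  have hX0 : 0 ≤ X := Real.rpow_nonneg (by positivity) _
  have hX3 : X ^ 3 = a ^ 2 * L ^ 4 := cube_X (by linarith)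
  have hLX : L ≤ 2 * X := L_le ha1 hLhalf hX0 hX3
  have hvlog : Real.log ((v : ℝ) + 1) ≤ 3 * L := by
    have h1 : (v : ℝ) + 1 ≤ (q : ℝ) ^ 3 := by
      have : v + 1 ≤ q ^ 3 := by
        rw [hv]
        have h2 : q * q ≥ 2 * q := Nat.mul_le_mul_right q hq2
        have h3 : q ^ 3 = q * (q * q) := by ring
        rw [h3]
        nlinarith
      exact_mod_cast this
    calc Real.log ((v : ℝ) + 1) ≤ Real.log ((q : ℝ) ^ 3) := Real.log_le_log (by positivity) h1
      _ = 3 * L := by rw [Real.log_pow, hL]; norm_num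
  have hv2 : v ≤ 2 * q ^ 2 := by
    rw [hv]
    nlinarith
  -- a bound of the shape (card Q + 1)^r gives the result
  have hfin : ∀ r : ℕ, 𝒟.card ≤ (Fintype.card (Quotient (orbSetoid u h0 hu)) + 1) ^ r →
      (r : ℝ) * (3 * L) ≤ 600 * X → (𝒟.card : ℝ) ≤ Real.exp (600 * X) := by
    intro r hr1 hr2
    have h1 : (𝒟.card : ℝ) ≤ ((v : ℝ) + 1) ^ r := by
      have : 𝒟.card ≤ (v + 1) ^ r := le_trans hr1 (Nat.pow_le_pow_left (by omega) r)
      exact_mod_cast this
    have h2 : ((v : ℝ) + 1) ^ r = Real.exp (r * Real.log ((v : ℝ) + 1)) := by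
      rw [Real.exp_nat_mul, Real.exp_log (by positivity)]
    rw [h2] at h1
    refine le_trans h1 (Real.exp_le_exp.2 (le_trans ?_ hr2))
    exact mul_le_mul_of_nonneg_left hvlog (by positivity)
  rcases le_or_gt (360 * L) a with hcase | hcase
  · -- random choice
    set δ : ℝ := (360 * L / a) ^ (1 / 3 : ℝ) with hδ
    have hbase : 0 ≤ 360 * L / a := by positivity
    have hbase1 : 360 * L / a ≤ 1 := by
      rw [div_le_one (by linarith)]
      exact hcase
    have hδ0 : 0 < δ := Real.rpow_pos_of_pos (by positivity) _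
    have hδ1 : δ ≤ 1 := Real.rpow_le_one hbase hbase1 (by norm_num)
    have hδ3 : δ ^ 3 = 360 * L / a := by
      rw [hδ, ← Real.rpow_natCast, ← Real.rpow_mul hbase]
      norm_num
    have hδ3a : δ ^ 3 * a = 360 * L := by
      rw [hδ3]
      field_simp
    have hN : 5 * L ≤ δ ^ 3 * (((q + 1) / (12 * (3 * k)) : ℕ) : ℝ) := by
      have h1 : ((q : ℝ) + 1) / (36 * k) - 1 ≤ (((q + 1) / (12 * (3 * k)) : ℕ) : ℝ) := by
        have h2 : q + 1 < 12 * (3 * k) * ((q + 1) / (12 * (3 * k)) + 1) :=
          Nat.lt_mul_div_succ (q + 1) (by omega)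
        have h3 : ((q : ℝ) + 1) < 12 * (3 * k) * ((((q + 1) / (12 * (3 * k)) : ℕ) : ℝ) + 1) := by
          exact_mod_cast h2
        rw [sub_le_iff_le_add, div_le_iff₀ (by positivity)]
        linarith
      have h4 : a / 72 ≤ ((q : ℝ) + 1) / (36 * k) - 1 := by
        have h5 : a ≥ 72 := by linarith
        have h6 : ((q : ℝ) + 1) / (36 * k) = a / 36 + 1 / (36 * k) := by
          rw [ha]
          field_simp
        rw [h6]
        have : 0 ≤ 1 / (36 * (k : ℝ)) := by positivity
        linarith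
      have h7 : δ ^ 3 * (a / 72) = 5 * L := by
        calc δ ^ 3 * (a / 72) = (δ ^ 3 * a) / 72 := by ring
          _ = 5 * L := by rw [hδ3a]; ring
      rw [← h7]
      exact mul_le_mul_of_nonneg_left (by linarith) (by positivity)
    have hr := card_family_le o (m := 3 * k) (r := ⌈2 * δ * (12 * a)⌉₊) hδ0 hδ1 𝒟 hpl
      (fun D hD => Finset.card_pos.1 (by rw [hcard D hD]; omega)) hsat
      (fun D _ t => orb_fibre h0 hu D t)
      (fun D hD => by
        rw [hcard D hD, ZMod.card]
        exact small_of hδ0.le hδ1 hq2 hv2 hN)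
      (fun D hD => by
        refine le_trans ?_ (Nat.le_ceil _)
        exact mul_le_mul_of_nonneg_left (horb D hD) (by positivity))
    refine hfin _ hr ?_
    have h8 : ((⌈2 * δ * (12 * a)⌉₊ : ℕ) : ℝ) < 2 * δ * (12 * a) + 1 :=
      Nat.ceil_lt_add_one (by positivity)
    have h9 : δ * a * L ≤ 8 * X := case_one (by linarith) (by linarith) hX0 hX3 hδ3a
    have hL3 : 0 ≤ 3 * L := by linarith
    have h10 := mul_le_mul_of_nonneg_right h8.le hL3
    have h11 : (2 * δ * (12 * a) + 1) * (3 * L) = 72 * (δ * a * L) + 3 * L := by ring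
    rw [h11] at h10
    linarith
  · -- trivial bound
    have hr := card_family_trivial o (r := ⌈12 * a⌉₊) 𝒟 hsat (fun D hD => by
      have := le_trans (horb D hD) (Nat.le_ceil (12 * a))
      exact_mod_cast this)
    refine hfin _ hr ?_
    have h8 : ((⌈12 * a⌉₊ : ℕ) : ℝ) < 12 * a + 1 := Nat.ceil_lt_add_one (by positivity)
    have h9 : a * L ≤ 8 * X := case_two (by linarith) (by linarith) hX0 hX3 hcase.le
    have hL3 : 0 ≤ 3 * L := by linarith
    have h10 := mul_le_mul_of_nonneg_right h8.le hL3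
    have h11 : (12 * a + 1) * (3 * L) = 36 * (a * L) + 3 * L := by ring
    rw [h11] at h10
    linarith

end Pool.Agent.H42.CPD
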