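import Mathlib

/-! # A random subset containing one of many disjoint triples (MP_a74db3_co)

Product weights on the subsets of a finite set `Ω`; if for every `x` of a finite set `X` we are
given many pairwise disjoint subsets of `Ω` of size at most three, then a subset `A` of `Ω` of size
less than `2 δ |Ω|` contains one of these subsets for every `x`. -/

set_option autoImplicit false

namespace Pool.Agent.H42.CPD

open Finset

variable {ι κ χ : Type*} [DecidableEq ι]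

/-- The weight of the subset `A` of `Ω`. -/
def wt (δ : ℝ) (Ω A : Finset ι) : ℝ := δ ^ A.card * (1 - δ) ^ (Ω \ A).card

theorem wt_nonneg {δ : ℝ} (h0 : 0 ≤ δ) (h1 : δ ≤ 1) (Ω A : Finset ι) : 0 ≤ wt δ Ω A :=
  mul_nonneg (pow_nonneg h0 _) (pow_nonneg (by linarith) _)

theorem sum_wt_superset (δ : ℝ) {Ω J : Finset ι} (hJ : J ⊆ Ω) :
    ∑ A ∈ Ω.powerset, wt δ Ω A * (if J ⊆ A then 1 else 0) = δ ^ J.card := by
  have h1 := Finset.prod_add (fun _ : ι => δ) (fun i : ι => if i ∈ J then 0 else 1 - δ) Ω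
  have h2 : ∏ i ∈ Ω, (δ + (if i ∈ J then 0 else 1 - δ)) = δ ^ J.card := by
    have : ∀ i ∈ Ω, (δ + (if i ∈ J then 0 else 1 - δ)) = if i ∈ J then δ else 1 := by
      intro i _
      split_ifs <;> ring
    rw [Finset.prod_congr rfl this, Finset.prod_ite, Finset.prod_const, Finset.prod_const_one,
      mul_one, Finset.filter_mem_eq_inter, Finset.inter_eq_right.2 hJ]
  rw [← h2, h1]
  refine Finset.sum_congr rfl fun A hA => ?_
  rw [Finset.mem_powerset] at hA
  unfold wt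
  rw [Finset.prod_const, mul_assoc]
  congr 1
  split_ifs with h
  · rw [mul_one, ← Finset.prod_const]
    refine Finset.prod_congr rfl fun i hi => ?_
    rw [if_neg]
    intro hiJ
    exact (Finset.mem_sdiff.1 hi).2 (h hiJ)
  · rw [mul_zero]
    obtain ⟨i, hiJ, hiA⟩ := Finset.not_subset.1 h
    refine (Finset.prod_eq_zero (i := i) (Finset.mem_sdiff.2 ⟨hJ hiJ, hiA⟩) ?_).symm
    rw [if_pos hiJ]

theorem sum_wt (δ : ℝ) (Ω : Finset ι) : ∑ A ∈ Ω.powerset, wt δ Ω A = 1 := by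
  have h := sum_wt_superset δ (Finset.empty_subset Ω)
  simpa using h

theorem sum_wt_card (δ : ℝ) (Ω : Finset ι) :
    ∑ A ∈ Ω.powerset, wt δ Ω A * (A.card : ℝ) = δ * Ω.card := by
  have h1 : ∀ A ∈ Ω.powerset, wt δ Ω A * (A.card : ℝ)
      = ∑ i ∈ Ω, wt δ Ω A * (if ({i} : Finset ι) ⊆ A then 1 else 0) := by
    intro A hA
    rw [Finset.mem_powerset] at hA
    rw [← Finset.mul_sum]
    congr 1
    simp_rw [Finset.singleton_subset_iff]
    rw [Finset.sum_boole, Finset.filter_mem_eq_inter, Finset.inter_eq_right.2 hA]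
  rw [Finset.sum_congr rfl h1, Finset.sum_comm]
  have h2 : ∀ i ∈ Ω, ∑ A ∈ Ω.powerset, wt δ Ω A * (if ({i} : Finset ι) ⊆ A then 1 else 0) = δ := by
    intro i hi
    rw [sum_wt_superset δ (Finset.singleton_subset_iff.2 hi), Finset.card_singleton, pow_one]
  rw [Finset.sum_congr rfl h2, Finset.sum_const, nsmul_eq_mul]
  ring

theorem sum_wt_prod (δ : ℝ) (Ω : Finset ι) (S : Finset κ) (T : κ → Finset ι)
    (hT : ∀ k ∈ S, T k ⊆ Ω) (hd : (S : Set κ).PairwiseDisjoint T) :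
    ∑ A ∈ Ω.powerset, wt δ Ω A * ∏ k ∈ S, (1 - (if T k ⊆ A then (1 : ℝ) else 0))
      = ∏ k ∈ S, (1 - δ ^ (T k).card) := by
  classical
  have h1 : ∀ g : κ → ℝ, ∏ k ∈ S, (1 - g k)
      = ∑ t ∈ S.powerset, (-1) ^ t.card * ∏ k ∈ t, g k := by
    intro g
    have := Finset.prod_sub (fun _ : κ => (1 : ℝ)) g S
    rw [this]
    refine Finset.sum_congr rfl fun t _ => ?_
    rw [Finset.prod_const_one]
    ring
  rw [h1 (fun k => δ ^ (T k).card)]
  simp_rw [h1 (fun k => if T k ⊆ _ then (1 : ℝ) else 0), Finset.mul_sum]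
  rw [Finset.sum_comm]
  refine Finset.sum_congr rfl fun t ht => ?_
  rw [Finset.mem_powerset] at ht
  have h2 : ∀ A ∈ Ω.powerset, wt δ Ω A * ((-1) ^ t.card * ∏ k ∈ t, (if T k ⊆ A then (1 : ℝ) else 0))
      = (-1) ^ t.card * (wt δ Ω A * (if t.biUnion T ⊆ A then 1 else 0)) := by
    intro A _
    have : ∏ k ∈ t, (if T k ⊆ A then (1 : ℝ) else 0) = if t.biUnion T ⊆ A then 1 else 0 := by
      rw [Finset.prod_ite_zero, Finset.prod_const_one]
      congr 1
      simp only [Finset.biUnion_subset]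
    rw [this]
    ring
  rw [Finset.sum_congr rfl h2, ← Finset.mul_sum, sum_wt_superset]
  · congr 1
    rw [Finset.card_biUnion, Finset.prod_pow_eq_pow_sum]
    intro i hi j hj hij
    exact hd (ht hi) (ht hj) hij
  · exact Finset.biUnion_subset.2 fun k hk => hT k (ht hk)

theorem exists_subset {δ : ℝ} (h0 : 0 < δ) (h1 : δ ≤ 1) {Ω : Finset ι} (hΩ : Ω.Nonempty)
    (X : Finset χ) (S : χ → Finset κ) (T : χ → κ → Finset ι)
    (hT : ∀ x ∈ X, ∀ k ∈ S x, T x k ⊆ Ω) (hd : ∀ x ∈ X, (S x : Set κ).PairwiseDisjoint (T x))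
    (hc : ∀ x ∈ X, ∀ k ∈ S x, (T x k).card ≤ 3) {N0 : ℕ} (hN : ∀ x ∈ X, N0 ≤ (S x).card)
    (hsmall : (X.card : ℝ) * (1 - δ ^ 3) ^ N0 < 1 / 2) :
    ∃ A ⊆ Ω, (A.card : ℝ) < 2 * δ * Ω.card ∧ ∀ x ∈ X, ∃ k ∈ S x, T x k ⊆ A := by
  classical
  have hΩc : (0 : ℝ) < Ω.card := by exact_mod_cast hΩ.card_pos
  set L : ℝ := 2 * δ * Ω.card with hL
  have hLpos : 0 < L := by positivity
  set P : Finset ι → χ → ℝ := fun A x => ∏ k ∈ S x, (1 - (if T x k ⊆ A then (1 : ℝ) else 0)) with hP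
  have hPnn : ∀ A x, 0 ≤ P A x := by
    intro A x
    refine Finset.prod_nonneg fun k _ => ?_
    split_ifs <;> norm_num
  have hδ3 : 0 ≤ 1 - δ ^ 3 := by
    have := pow_le_one₀ (n := 3) h0.le h1
    linarith
  have hmean : ∑ A ∈ Ω.powerset, wt δ Ω A * (∑ x ∈ X, P A x + (A.card : ℝ) / L) < 1 := by
    have e1 : ∑ A ∈ Ω.powerset, wt δ Ω A * (∑ x ∈ X, P A x + (A.card : ℝ) / L)
        = (∑ x ∈ X, ∑ A ∈ Ω.powerset, wt δ Ω A * P A x)
          + (∑ A ∈ Ω.powerset, wt δ Ω A * (A.card : ℝ)) / L := by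
      rw [Finset.sum_comm, Finset.sum_div, ← Finset.sum_add_distrib]
      refine Finset.sum_congr rfl fun A _ => ?_
      rw [mul_add, Finset.mul_sum, mul_div_assoc]
    rw [e1, sum_wt_card]
    have e2 : δ * (Ω.card : ℝ) / L = 1 / 2 := by
      rw [hL]
      field_simp
    rw [e2]
    have e3 : ∑ x ∈ X, ∑ A ∈ Ω.powerset, wt δ Ω A * P A x ≤ ∑ _x ∈ X, (1 - δ ^ 3) ^ N0 := by
      refine Finset.sum_le_sum fun x hx => ?_
      rw [sum_wt_prod δ Ω (S x) (T x) (hT x hx) (hd x hx)]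
      calc ∏ k ∈ S x, (1 - δ ^ (T x k).card) ≤ ∏ _k ∈ S x, (1 - δ ^ 3) := by
            refine Finset.prod_le_prod ?_ ?_
            · intro k _
              have := pow_le_one₀ (n := (T x k).card) h0.le h1
              linarith
            · intro k hk
              have := pow_le_pow_of_le_one h0.le h1 (hc x hx k hk)
              linarith
        _ = (1 - δ ^ 3) ^ (S x).card := by rw [Finset.prod_const]
        _ ≤ (1 - δ ^ 3) ^ N0 := by
            refine pow_le_pow_of_le_one hδ3 ?_ (hN x hx)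
            have : 0 < δ ^ 3 := by positivity
            linarith
    rw [Finset.sum_const, nsmul_eq_mul] at e3
    linarith
  have hex : ∃ A ∈ Ω.powerset, ∑ x ∈ X, P A x + (A.card : ℝ) / L < 1 := by
    by_contra hcon
    push Not at hcon
    have : (1 : ℝ) ≤ ∑ A ∈ Ω.powerset, wt δ Ω A * (∑ x ∈ X, P A x + (A.card : ℝ) / L) := by
      calc (1 : ℝ) = ∑ A ∈ Ω.powerset, wt δ Ω A := (sum_wt δ Ω).symm
        _ ≤ _ := by
          refine Finset.sum_le_sum fun A hA => ?_
          have := hcon A hA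
          have hw := wt_nonneg h0.le h1 Ω A
          nlinarith
    linarith
  obtain ⟨A, hA, hlt⟩ := hex
  have hs : 0 ≤ ∑ x ∈ X, P A x := Finset.sum_nonneg fun x _ => hPnn A x
  have hq : 0 ≤ (A.card : ℝ) / L := by positivity
  refine ⟨A, Finset.mem_powerset.1 hA, ?_, ?_⟩
  · have : (A.card : ℝ) / L < 1 := by linarith
    exact (div_lt_one hLpos).1 this
  · intro x hx
    by_contra hcon
    push Not at hcon
    have h2 : P A x = 1 := by
      refine Finset.prod_eq_one fun k hk => ?_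
      rw [if_neg (hcon k hk), sub_zero]
    have h3 : P A x ≤ ∑ x ∈ X, P A x :=
      Finset.single_le_sum (f := fun x => P A x) (fun y _ => hPnn A y) hx
    linarith

end Pool.Agent.H42.CPD
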